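import Mathlib
import Pool.Agent.U469.DE.S

/-!
# Project DE, package GeoProp: the properties of the curve `gam t`
-/

set_option autoImplicit false

open Filter Topology Set

namespace Pool.Agent.U411.DE

open Pool.Agent.U469.DE

theorem del_pos : (0 : ℝ) < del := by norm_num [del]

theorem del_lt_rad : del < rad := by norm_num [del, rad]

theorem ste_pos : (0 : ℝ) < ste := by norm_num [ste]

/-- the sum of the two lengths is the arc length -/
theorem sum_eq {t r : ℝ} (ht : 0 ≤ t) (_hr : 0 ≤ r) : cX t r + cV t r = r := by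
  have h1 := del_pos
  have h2 := del_lt_rad
  have h3 := ste_pos
  unfold cX cV
  rcases le_total r del with h | h
  · rw [min_eq_left h, min_eq_left (by linarith), max_eq_left (by linarith),
      max_eq_left (by linarith : r - rad - t - ste ≤ 0), min_eq_left (by linarith : r - del ≤ t),
      max_eq_left (by linarith), min_eq_left (by linarith), max_eq_left (by linarith)]
    ring
  rcases le_total r (del + t) with h' | h'
  · rw [min_eq_right h, min_eq_left (by linarith), max_eq_left (by linarith),
      max_eq_left (by linarith : r - rad - t - ste ≤ 0), min_eq_left (by linarith : r - del ≤ t),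
      max_eq_right (by linarith), min_eq_left (by linarith), max_eq_left (by linarith)]
    ring
  rcases le_total r (rad + t) with h'' | h''
  · rw [min_eq_right h, min_eq_left (by linarith), max_eq_right (by linarith),
      max_eq_left (by linarith : r - rad - t - ste ≤ 0), min_eq_right (by linarith : t ≤ r - del),
      max_eq_right (by linarith), min_eq_left (by linarith), max_eq_left (by linarith)]
    ring
  rcases le_total r (rad + t + ste) with h4 | h4
  · rw [min_eq_right h, min_eq_right (by linarith : rad - del ≤ r - del - t),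
      max_eq_right (by linarith),
      max_eq_left (by linarith : r - rad - t - ste ≤ 0), min_eq_right (by linarith : t ≤ r - del),
      max_eq_right (by linarith), min_eq_left (by linarith), max_eq_right (by linarith)]
    ring
  · rw [min_eq_right h, min_eq_right (by linarith : rad - del ≤ r - del - t),
      max_eq_right (by linarith),
      max_eq_right (by linarith : 0 ≤ r - rad - t - ste), min_eq_right (by linarith : t ≤ r - del),
      max_eq_right (by linarith), min_eq_right (by linarith), max_eq_right (by linarith)]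
    ring

theorem cX_mono (t : ℝ) : Monotone (cX t) := by
  intro a b hab
  unfold cX
  gcongr

theorem cV_mono (t : ℝ) : Monotone (cV t) := by
  intro a b hab
  unfold cV
  gcongr

theorem cX_cont (t : ℝ) : Continuous (cX t) := by
  unfold cX
  fun_prop

theorem cV_cont (t : ℝ) : Continuous (cV t) := by
  unfold cV
  fun_prop

theorem cX_zero {t : ℝ} (ht : 0 ≤ t) : cX t 0 = 0 := by
  have h1 := del_pos
  have h2 := del_lt_rad
  have h3 := ste_pos
  unfold cX
  rw [min_eq_left h1.le, min_eq_left (by linarith), max_eq_left (by linarith),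
      max_eq_left (by linarith)]
  ring

theorem cV_zero {t : ℝ} (ht : 0 ≤ t) : cV t 0 = 0 := by
  have := sum_eq ht le_rfl
  rw [cX_zero ht] at this
  linarith

theorem cX_nonneg {t r : ℝ} (ht : 0 ≤ t) (hr : 0 ≤ r) : 0 ≤ cX t r := by
  rw [← cX_zero ht]
  exact cX_mono t hr

theorem cV_le {t : ℝ} (ht : 0 ≤ t) (r : ℝ) : cV t r ≤ t + ste := by
  unfold cV
  have h3 := ste_pos
  have a : max 0 (min (r - del) t) ≤ t := max_le ht (min_le_right _ _)
  have b : max 0 (min (r - rad - t) ste) ≤ ste := max_le h3.le (min_le_right _ _)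
  linarith

/-- the vertical length is bounded by a multiple of the abscissa -/
theorem cV_le_cX {t r : ℝ} (ht : 0 ≤ t) (ht' : t ≤ top) (hr : 0 ≤ r) : cV t r ≤ 405 * cX t r := by
  have h1 := del_pos
  rcases le_total r del with h | h
  · have : cX t r = r := by
      have h2 := del_lt_rad
      have h3 := ste_pos
      unfold cX
      rw [min_eq_left h, min_eq_left (by linarith), max_eq_left (by linarith),
        max_eq_left (by linarith)]
      ring
    have h4 := sum_eq ht hr
    have : cV t r = 0 := by linarith
    rw [this]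
    have := cX_nonneg ht hr
    linarith
  · have a := cV_le ht r
    have b : del ≤ cX t r := by
      have c : cX t del ≤ cX t r := cX_mono t h
      have : del ≤ cX t del := by
        unfold cX
        have := le_max_left 0 (min (del - del - t) (rad - del))
        have := le_max_left 0 (del - rad - t - ste)
        rw [min_self]
        linarith
      linarith
    unfold del top ste at *
    linarith

theorem gam_nonneg {t s : ℝ} (hs : 0 ≤ s) : gam t s = (cX t s, t - cV t s) := by
  unfold gam
  rw [if_pos hs, abs_of_nonneg hs]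

theorem gam_neg {t s : ℝ} (ht : 0 ≤ t) (hs : 0 ≤ s) : gam t (-s) = (-cX t s, t - cV t s) := by
  unfold gam
  rw [abs_neg, abs_of_nonneg hs, neg_neg]
  split_ifs with h
  · have : s = 0 := by linarith
    subst this
    rw [neg_zero, cX_zero ht, neg_zero]
  · rfl

theorem gam_cont {t : ℝ} (ht : 0 ≤ t) : Continuous (gam t) := by
  unfold gam
  refine Continuous.prodMk ?_ ?_
  · refine Continuous.if_le (cX_cont t) ((cX_cont t).comp continuous_neg).neg continuous_const
      continuous_id ?_
    intro x hx
    have hx0 : x = 0 := hx.symm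
    subst hx0
    simp [cX_zero ht]
  · exact continuous_const.sub ((cV_cont t).comp continuous_abs)

/-- local affinity of the two length functions away from the breakpoints -/
theorem local_affine {t r : ℝ} (ht : 0 < t) (hr : 0 < r) (h1 : r ≠ del) (h2 : r ≠ del + t)
    (h3 : r ≠ rad + t) (h4 : r ≠ rad + t + ste) :
    ∃ a b : ℝ, a ^ 2 + b ^ 2 = 1 ∧ ∀ᶠ q in 𝓝 r, cX t q = cX t r + (q - r) * a ∧
      cV t q = cV t r + (q - r) * b := by
  have k1 := del_pos
  have k2 := del_lt_rad
  have k3 := ste_pos
  -- it is enough to know `cX` near `r`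
  have key : ∀ a b : ℝ, a + b = 1 → a ^ 2 + b ^ 2 = 1 →
      (∀ᶠ q in 𝓝 r, cX t q = cX t r + (q - r) * a) →
      ∃ a b : ℝ, a ^ 2 + b ^ 2 = 1 ∧ ∀ᶠ q in 𝓝 r, cX t q = cX t r + (q - r) * a ∧
      cV t q = cV t r + (q - r) * b := by
    intro a b hab hab2 h
    refine ⟨a, b, hab2, ?_⟩
    filter_upwards [h, lt_mem_nhds hr] with q hq hq0
    refine ⟨hq, ?_⟩
    have e1 := sum_eq ht.le hq0.le
    have e2 := sum_eq ht.le hr.le
    have : b = 1 - a := by linarith
    subst this
    nlinarith
  rcases lt_or_gt_of_ne h1 with g1 | g1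
  · refine key 1 0 (by norm_num) (by norm_num) ?_
    filter_upwards [gt_mem_nhds g1] with q hq
    unfold cX
    rw [min_eq_left (by linarith : q ≤ del), min_eq_left (by linarith : q - del - t ≤ rad - del),
      max_eq_left (by linarith : q - del - t ≤ 0), max_eq_left (by linarith : q - rad - t - ste ≤ 0),
      min_eq_left (by linarith : r ≤ del), min_eq_left (by linarith : r - del - t ≤ rad - del),
      max_eq_left (by linarith : r - del - t ≤ 0), max_eq_left (by linarith : r - rad - t - ste ≤ 0)]
    ring
  rcases lt_or_gt_of_ne h2 with g2 | g2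
  · refine key 0 1 (by norm_num) (by norm_num) ?_
    filter_upwards [lt_mem_nhds g1, gt_mem_nhds g2] with q hq hq'
    unfold cX
    rw [min_eq_right (by linarith : del ≤ q), min_eq_left (by linarith : q - del - t ≤ rad - del),
      max_eq_left (by linarith : q - del - t ≤ 0), max_eq_left (by linarith : q - rad - t - ste ≤ 0),
      min_eq_right (by linarith : del ≤ r), min_eq_left (by linarith : r - del - t ≤ rad - del),
      max_eq_left (by linarith : r - del - t ≤ 0), max_eq_left (by linarith : r - rad - t - ste ≤ 0)]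
    ring
  rcases lt_or_gt_of_ne h3 with g3 | g3
  · refine key 1 0 (by norm_num) (by norm_num) ?_
    filter_upwards [lt_mem_nhds g2, gt_mem_nhds g3] with q hq hq'
    unfold cX
    rw [min_eq_right (by linarith : del ≤ q), min_eq_left (by linarith : q - del - t ≤ rad - del),
      max_eq_right (by linarith : 0 ≤ q - del - t), max_eq_left (by linarith : q - rad - t - ste ≤ 0),
      min_eq_right (by linarith : del ≤ r), min_eq_left (by linarith : r - del - t ≤ rad - del),
      max_eq_right (by linarith : 0 ≤ r - del - t), max_eq_left (by linarith : r - rad - t - ste ≤ 0)]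
    ring
  rcases lt_or_gt_of_ne h4 with g4 | g4
  · refine key 0 1 (by norm_num) (by norm_num) ?_
    filter_upwards [lt_mem_nhds g3, gt_mem_nhds g4] with q hq hq'
    unfold cX
    rw [min_eq_right (by linarith : del ≤ q), min_eq_right (by linarith : rad - del ≤ q - del - t),
      max_eq_right (by linarith : 0 ≤ rad - del), max_eq_left (by linarith : q - rad - t - ste ≤ 0),
      min_eq_right (by linarith : del ≤ r), min_eq_right (by linarith : rad - del ≤ r - del - t),
      max_eq_right (by linarith : 0 ≤ rad - del), max_eq_left (by linarith : r - rad - t - ste ≤ 0)]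
    ring
  · refine key 1 0 (by norm_num) (by norm_num) ?_
    filter_upwards [lt_mem_nhds g4] with q hq
    unfold cX
    rw [min_eq_right (by linarith : del ≤ q), min_eq_right (by linarith : rad - del ≤ q - del - t),
      max_eq_right (by linarith : 0 ≤ rad - del), max_eq_right (by linarith : 0 ≤ q - rad - t - ste),
      min_eq_right (by linarith : del ≤ r), min_eq_right (by linarith : rad - del ≤ r - del - t),
      max_eq_right (by linarith : 0 ≤ rad - del), max_eq_right (by linarith : 0 ≤ r - rad - t - ste)]
    ring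

theorem arcLength {t : ℝ} (ht : 0 < t) : IsArcLength (gam t) := by
  refine ⟨gam_cont ht.le, ?_⟩
  refine ⟨{0, del, del + t, rad + t, rad + t + ste, -del, -(del + t), -(rad + t),
    -(rad + t + ste)}, fun s hs => ?_⟩
  simp only [Finset.mem_insert, Finset.mem_singleton, not_or] at hs
  obtain ⟨h0, h1, h2, h3, h4, h5, h6, h7, h8⟩ := hs
  rcases lt_or_gt_of_ne h0 with hneg | hpos
  · obtain ⟨a, b, hab, hev⟩ := local_affine (t := t) (r := -s) ht (by linarith)
      (fun h => h5 (by linarith)) (fun h => h6 (by linarith)) (fun h => h7 (by linarith))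
      (fun h => h8 (by linarith))
    refine ⟨(a, b), hab, ?_⟩
    have hc : Tendsto (fun q : ℝ => -q) (𝓝 s) (𝓝 (-s)) := continuous_neg.tendsto s
    filter_upwards [hc.eventually hev, gt_mem_nhds hneg] with q hq hq0
    have e1 := gam_neg (t := t) (s := -q) ht.le (by linarith)
    have e2 := gam_neg (t := t) (s := -s) ht.le (by linarith)
    rw [neg_neg] at e1 e2
    rw [e1, e2, hq.1, hq.2]
    ext
    · simp only [Prod.fst_add, Prod.smul_fst, smul_eq_mul]
      ring
    · simp only [Prod.snd_add, Prod.smul_snd, smul_eq_mul]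
      ring
  · obtain ⟨a, b, hab, hev⟩ := local_affine (t := t) (r := s) ht hpos h1 h2 h3 h4
    refine ⟨(a, -b), by simpa using hab, ?_⟩
    filter_upwards [hev, lt_mem_nhds hpos] with q hq hq0
    rw [gam_nonneg (le_of_lt hq0), gam_nonneg hpos.le, hq.1, hq.2]
    ext
    · simp only [Prod.fst_add, Prod.smul_fst, smul_eq_mul]
    · simp only [Prod.snd_add, Prod.smul_snd, smul_eq_mul]
      ring

theorem dist2_ge_fst (p q : ℝ × ℝ) : |p.1 - q.1| ≤ dist2 p q := by
  unfold dist2
  exact Real.abs_le_sqrt (by nlinarith [sq_nonneg (p.2 - q.2)])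

theorem dist2_ge_snd (p q : ℝ × ℝ) : |p.2 - q.2| ≤ dist2 p q := by
  unfold dist2
  exact Real.abs_le_sqrt (by nlinarith [sq_nonneg (p.1 - q.1)])

theorem dist2_nonneg (p q : ℝ × ℝ) : 0 ≤ dist2 p q := Real.sqrt_nonneg _

theorem dist2_comm (p q : ℝ × ℝ) : dist2 p q = dist2 q p := by
  unfold dist2
  congr 1
  ring

/-- two points on the same side -/
theorem same_side {t r q : ℝ} (ht : 0 ≤ t) (hr : 0 ≤ r) (hrq : r ≤ q) :
    q - r ≤ 2 * max |cX t q - cX t r| |cV t q - cV t r| := by
  have e1 := sum_eq ht hr
  have e2 := sum_eq ht (hr.trans hrq)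
  have a := le_abs_self (cX t q - cX t r)
  have b := le_abs_self (cV t q - cV t r)
  have c := le_max_left |cX t q - cX t r| |cV t q - cV t r|
  have d := le_max_right |cX t q - cX t r| |cV t q - cV t r|
  linarith

theorem chord_aux {t s s' : ℝ} (ht : 0 ≤ t) (ht' : t ≤ top) (h : s ≤ s') :
    1 / 406 * |s - s'| ≤ dist2 (gam t s) (gam t s') := by
  have habs : |s - s'| = s' - s := by rw [abs_sub_comm, abs_of_nonneg (by linarith)]
  rw [habs]
  rcases le_total 0 s with h0 | h0
  · have h0' : 0 ≤ s' := h0.trans h
    have k := same_side ht h0 h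
    have a := dist2_ge_fst (gam t s) (gam t s')
    have b := dist2_ge_snd (gam t s) (gam t s')
    rw [gam_nonneg h0, gam_nonneg h0'] at a b ⊢
    simp only at a b
    have b' : |cV t s' - cV t s| ≤ dist2 (cX t s, t - cV t s) (cX t s', t - cV t s') := by
      refine le_trans (le_of_eq ?_) b
      congr 1
      ring
    have a' : |cX t s' - cX t s| ≤ dist2 (cX t s, t - cV t s) (cX t s', t - cV t s') := by
      rw [abs_sub_comm]
      exact a
    have c := max_le a' b'
    linarith
  rcases le_total 0 s' with h1 | h1
  · have a := dist2_ge_fst (gam t s) (gam t s')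
    have e := gam_neg (t := t) (s := -s) ht (by linarith)
    rw [neg_neg] at e
    rw [e, gam_nonneg h1] at a ⊢
    simp only at a
    have c1 := cV_le_cX ht ht' h1
    have c2 := cV_le_cX ht ht' (r := -s) (by linarith)
    have e1 := sum_eq ht h1
    have e2 := sum_eq (r := -s) ht (by linarith)
    have d := neg_abs_le (-cX t (-s) - cX t s')
    linarith
  · have a := dist2_ge_fst (gam t s) (gam t s')
    have b := dist2_ge_snd (gam t s) (gam t s')
    have e := gam_neg (t := t) (s := -s) ht (by linarith)
    have e' := gam_neg (t := t) (s := -s') ht (by linarith)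
    rw [neg_neg] at e e'
    have k := same_side (t := t) (r := -s') (q := -s) ht (by linarith) (by linarith)
    rw [e, e'] at a b ⊢
    simp only at a b
    have b' : |cV t (-s) - cV t (-s')| ≤
        dist2 (-cX t (-s), t - cV t (-s)) (-cX t (-s'), t - cV t (-s')) := by
      refine le_trans (le_of_eq ?_) b
      rw [abs_sub_comm]
      congr 1
      ring
    have a' : |cX t (-s) - cX t (-s')| ≤
        dist2 (-cX t (-s), t - cV t (-s)) (-cX t (-s'), t - cV t (-s')) := by
      refine le_trans (le_of_eq ?_) a
      rw [abs_sub_comm]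
      congr 1
      ring
    have c := max_le a' b'
    linarith

theorem chordArc {t : ℝ} (ht : 0 ≤ t) (ht' : t ≤ top) : ChordArc (gam t) := by
  refine ⟨1 / 406, by norm_num, by norm_num, fun s s' => ?_⟩
  rcases le_total s s' with h | h
  · exact chord_aux ht ht' h
  · rw [dist2_comm, abs_sub_comm]
    exact chord_aux ht ht' h

/-- beyond the last breakpoint -/
theorem cX_far {t r : ℝ} (ht : 0 ≤ t) (hr : rad + t + ste ≤ r) :
    cX t r = r - t - ste ∧ cV t r = t + ste := by
  have k1 := del_pos
  have k2 := del_lt_rad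
  have k3 := ste_pos
  have h : cX t r = r - t - ste := by
    unfold cX
    rw [min_eq_right (by linarith : del ≤ r), min_eq_right (by linarith : rad - del ≤ r - del - t),
      max_eq_right (by linarith : 0 ≤ rad - del), max_eq_right (by linarith : 0 ≤ r - rad - t - ste)]
    ring
  refine ⟨h, ?_⟩
  have := sum_eq ht (r := r) (by linarith)
  linarith

theorem dist_far {t s s' : ℝ} (ht : 0 ≤ t) (hs : rad + t + ste ≤ |s|) (hs' : rad + t + ste ≤ |s'|)
    (hss : (0 ≤ s ∧ 0 ≤ s') ∨ (s ≤ 0 ∧ s' ≤ 0)) : dist2 (gam t s) (gam t s') = |s - s'| := by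
  obtain ⟨a1, a2⟩ := cX_far ht hs
  obtain ⟨b1, b2⟩ := cX_far ht hs'
  rcases hss with ⟨h, h'⟩ | ⟨h, h'⟩
  · rw [abs_of_nonneg h] at a1 a2
    rw [abs_of_nonneg h'] at b1 b2
    rw [gam_nonneg h, gam_nonneg h', a1, a2, b1, b2]
    unfold dist2
    simp only
    rw [← Real.sqrt_sq_eq_abs]
    congr 1
    ring
  · rw [abs_of_nonpos h] at a1 a2
    rw [abs_of_nonpos h'] at b1 b2
    have e := gam_neg (t := t) (s := -s) ht (by linarith)
    have e' := gam_neg (t := t) (s := -s') ht (by linarith)
    rw [neg_neg] at e e'
    rw [e, e', a1, a2, b1, b2]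
    unfold dist2
    simp only
    rw [← Real.sqrt_sq_eq_abs]
    congr 1
    ring

theorem asympt {t : ℝ} (ht : 0 ≤ t) (ht' : t ≤ top) : AsymptoticallyStraight (gam t) := by
  refine ⟨493, 1, 1 / 2, by norm_num, by norm_num, by norm_num, by norm_num, ?_⟩
  intro s s' hne h1 h2
  have hpos : 0 < |s - s'| := abs_pos.2 (sub_ne_zero.2 hne)
  have hR : 0 ≤ 493 * (1 + |s + s'| ^ (2 * (1 : ℝ))) ^ (-(1 / 2) : ℝ) := by positivity
  have hs' : s' ≠ 0 := by
    rintro rfl
    rw [div_zero] at h1
    norm_num at h1
  have hsign : (0 ≤ s ∧ 0 ≤ s') ∨ (s ≤ 0 ∧ s' ≤ 0) := by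
    rcases lt_or_gt_of_ne hs' with h | h
    · right
      refine ⟨?_, h.le⟩
      rw [lt_div_iff_of_neg h] at h1
      linarith
    · left
      refine ⟨?_, h.le⟩
      rw [lt_div_iff₀ h] at h1
      linarith
  have hb1 : |s| ≤ 2 * |s'| := by
    have : |s / s'| < 2 := by
      rw [abs_of_pos (by linarith)]
      norm_num at h2
      linarith
    rw [abs_div, div_lt_iff₀ (abs_pos.2 hs')] at this
    linarith
  have hb2 : |s'| ≤ 2 * |s| := by
    have : 1 / 2 < |s / s'| := lt_of_lt_of_le h1 (le_abs_self _)
    rw [abs_div, lt_div_iff₀ (abs_pos.2 hs')] at this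
    linarith
  by_cases hfar : rad + t + ste ≤ |s| ∧ rad + t + ste ≤ |s'|
  · rw [dist_far ht hfar.1 hfar.2 hsign, div_self hpos.ne', sub_self]
    exact hR
  · have hB : |s| ≤ 2 * (rad + t + ste) ∧ |s'| ≤ 2 * (rad + t + ste) := by
      rw [not_and_or, not_le, not_le] at hfar
      have k1 := del_pos
      have k2 := del_lt_rad
      have k3 := ste_pos
      rcases hfar with h | h
      · constructor
        · have := abs_nonneg s
          linarith
        · linarith
      · constructor
        · linarith
        · have := abs_nonneg s'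
          linarith
    have hsum : |s + s'| ≤ 492 := by
      have := abs_add_le s s'
      unfold rad ste at hB
      unfold top at ht'
      linarith [hB.1, hB.2]
    have hl : 1 - dist2 (gam t s) (gam t s') / |s - s'| ≤ 1 := by
      have := div_nonneg (dist2_nonneg (gam t s) (gam t s')) hpos.le
      linarith
    refine hl.trans ?_
    have hx := abs_nonneg (s + s')
    have e : |s + s'| ^ (2 * (1 : ℝ)) = |s + s'| ^ 2 := by
      rw [mul_one, Real.rpow_two]
    rw [e]
    have h3 : (1 + |s + s'| ^ 2) ≤ 493 ^ 2 := by nlinarith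
    have h4 : ((493 : ℝ) ^ 2) ^ (-(1 / 2) : ℝ) ≤ (1 + |s + s'| ^ 2) ^ (-(1 / 2) : ℝ) :=
      Real.rpow_le_rpow_of_nonpos (by positivity) h3 (by norm_num)
    have h5 : ((493 : ℝ) ^ 2) ^ (-(1 / 2) : ℝ) = 1 / 493 := by
      rw [← Real.rpow_natCast, ← Real.rpow_mul (by norm_num)]
      norm_num
    rw [h5] at h4
    linarith

theorem notStraight {t : ℝ} (ht : 0 < t) : NotStraight (gam t) := by
  have k1 := del_pos
  have k2 := del_lt_rad
  have k3 := ste_pos
  refine ⟨0, del + t / 2, ?_⟩
  have e : cX t (del + t / 2) = del := by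
    unfold cX
    rw [min_eq_right (by linarith), min_eq_left (by linarith), max_eq_left (by linarith),
      max_eq_left (by linarith)]
    ring
  have e2 : cV t (del + t / 2) = t / 2 := by
    have := sum_eq (t := t) (r := del + t / 2) ht.le (by linarith)
    linarith
  rw [gam_nonneg le_rfl, gam_nonneg (by linarith), e, e2, cX_zero ht.le, cV_zero ht.le]
  unfold dist2
  simp only
  rw [show |0 - (del + t / 2)| = del + t / 2 by rw [zero_sub, abs_neg, abs_of_pos (by linarith)],
    Real.sqrt_lt' (by linarith)]
  nlinarith [mul_pos k1 ht]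

/-- package GeoProp -/
theorem t_GeoProp : JobGeoProp := fun _ ht =>
  ⟨arcLength ht.1, chordArc ht.1.le ht.2.le, asympt ht.1.le ht.2.le, notStraight ht.1⟩

end Pool.Agent.U411.DE
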