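import Mathlib
import Pool.Agent.U469.DE.S
import Pool.Agent.U411.DE.GeoProp

/-!
# Project DE, package GeoInt: the integral along the curve `gam t`
-/

set_option autoImplicit false

open MeasureTheory Filter Topology Set

namespace Pool.Agent.U411.DE

open Pool.Agent.U469.DE

/-- a continuous function with compact support vanishes far away in the first variable -/
theorem exists_bound {H : ℝ × ℝ → ℂ} (hs : HasCompactSupport H) :
    ∃ R : ℝ, 0 < R ∧ ∀ p : ℝ × ℝ, R < |p.1| → H p = 0 := by
  obtain ⟨R, hR⟩ := hs.isCompact.isBounded.subset_closedBall (0 : ℝ × ℝ)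
  refine ⟨max R 1, by positivity, fun p hp => ?_⟩
  by_contra hne
  have h1 : p ∈ tsupport H := subset_tsupport _ hne
  have h2 := hR h1
  rw [mem_closedBall_zero_iff] at h2
  have h3 : |p.1| ≤ ‖p‖ := by
    have := norm_fst_le p
    rwa [Real.norm_eq_abs] at this
  have h4 := le_max_left R 1
  linarith

theorem measurable_hgt (t : ℝ) : Measurable (hgt t) := by
  unfold hgt
  refine Measurable.ite (measurableSet_lt (by fun_prop) measurable_const) measurable_const ?_
  exact Measurable.ite (measurableSet_lt (by fun_prop) measurable_const) measurable_const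
    measurable_const

theorem measurable_pos : Measurable pos := by
  unfold pos
  exact Measurable.ite (measurableSet_lt measurable_id measurable_const) measurable_const
    measurable_const

theorem integrable_hgt {t : ℝ} {H : ℝ × ℝ → ℂ} (hc : Continuous H) (hs : HasCompactSupport H) :
    Integrable fun x : ℝ => H (x, hgt t x) := by
  obtain ⟨R, hR, hz⟩ := exists_bound hs
  obtain ⟨C, hC⟩ := hc.bounded_above_of_compact_support hs
  have hm : AEStronglyMeasurable (fun x : ℝ => H (x, hgt t x)) volume :=
    (hc.measurable.comp (measurable_id.prodMk (measurable_hgt t))).aestronglyMeasurable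
  have h1 : IntegrableOn (fun x : ℝ => H (x, hgt t x)) (Icc (-R) R) := by
    refine Measure.integrableOn_of_bounded (M := C) (by simp) hm ?_
    exact Filter.Eventually.of_forall fun x => hC _
  refine (integrableOn_iff_integrable_of_support_subset ?_).1 h1
  intro x hx
  by_contra hne
  apply hx
  apply hz
  rw [mem_Icc, ← abs_le, not_le] at hne
  exact hne

theorem integrableOn_pos {a b : ℝ} {H : ℝ × ℝ → ℂ} (hc : Continuous H)
    (hs : HasCompactSupport H) : IntegrableOn (fun y : ℝ => H (pos y, y)) (Ioo a b) := by
  obtain ⟨C, hC⟩ := hc.bounded_above_of_compact_support hs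
  have hm : AEStronglyMeasurable (fun y : ℝ => H (pos y, y)) volume :=
    (hc.measurable.comp (measurable_pos.prodMk measurable_id)).aestronglyMeasurable
  refine Measure.integrableOn_of_bounded (M := C) (by simp) hm ?_
  exact Filter.Eventually.of_forall fun x => hC _

theorem integrable_gam {t : ℝ} (ht : 0 ≤ t) {H : ℝ × ℝ → ℂ} (hc : Continuous H)
    (hs : HasCompactSupport H) : Integrable fun s : ℝ => H (gam t s) := by
  obtain ⟨R, hR, hz⟩ := exists_bound hs
  have k2 := del_lt_rad
  have k1 := del_pos
  have k3 := ste_pos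
  refine (hc.comp (gam_cont ht)).integrable_of_hasCompactSupport ?_
  refine HasCompactSupport.intro (isCompact_Icc (a := -(R + rad + t + ste)) (b := R + rad + t + ste))
    fun s hs' => ?_
  rw [mem_Icc, ← abs_le, not_le] at hs'
  apply hz
  have hfar := cX_far ht (r := |s|) (by linarith)
  rcases le_total 0 s with h | h
  · rw [gam_nonneg h]
    rw [abs_of_nonneg h] at hfar hs'
    simp only
    rw [hfar.1]
    refine lt_of_lt_of_le ?_ (le_abs_self _)
    linarith
  · have e := gam_neg (t := t) (s := -s) ht (by linarith)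
    rw [neg_neg] at e
    rw [e]
    rw [abs_of_nonpos h] at hfar hs'
    simp only
    rw [abs_neg, hfar.1]
    refine lt_of_lt_of_le ?_ (le_abs_self _)
    linarith

/-- the horizontal integral over the right half -/
theorem hor_half {t : ℝ} {H : ℝ × ℝ → ℂ} (hc : Continuous H) (hs : HasCompactSupport H) :
    ∫ x in Ioi (0 : ℝ), H (x, hgt t x) =
      (∫ x in (0 : ℝ)..del, H (x, t)) + (∫ x in del..rad, H (x, 0)) +
        ∫ x in Ioi rad, H (x, -ste) := by
  have k1 := del_pos
  have k2 := del_lt_rad
  have hI := integrable_hgt (t := t) hc hs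
  have hu : Ioi (0 : ℝ) = Ioo 0 del ∪ (Ico del rad ∪ Ici rad) := by
    ext x
    simp only [mem_Ioi, mem_union, mem_Ioo, mem_Ico, mem_Ici]
    constructor
    · intro h
      rcases lt_or_ge x del with h1 | h1
      · exact Or.inl ⟨h, h1⟩
      rcases lt_or_ge x rad with h2 | h2
      · exact Or.inr (Or.inl ⟨h1, h2⟩)
      · exact Or.inr (Or.inr h2)
    · rintro (⟨h, _⟩ | ⟨h, _⟩ | h) <;> linarith
  have hd1 : Disjoint (Ioo 0 del) (Ico del rad ∪ Ici rad) := by
    rw [Set.disjoint_left]
    rintro x ⟨_, h2⟩ (⟨h, _⟩ | h)
    · linarith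
    · rw [mem_Ici] at h
      linarith
  have hd2 : Disjoint (Ico del rad) (Ici rad) := by
    rw [Set.disjoint_left]
    rintro x ⟨_, h2⟩ h
    rw [mem_Ici] at h
    linarith
  rw [hu, setIntegral_union hd1 (measurableSet_Ico.union measurableSet_Ici) hI.integrableOn
    hI.integrableOn, setIntegral_union hd2 measurableSet_Ici hI.integrableOn hI.integrableOn,
    ← add_assoc]
  congr 1
  · congr 1
    · rw [intervalIntegral.integral_of_le k1.le, integral_Ioc_eq_integral_Ioo]
      refine setIntegral_congr_fun measurableSet_Ioo fun x hx => ?_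
      simp only [hgt]
      rw [if_pos]
      rw [abs_of_pos hx.1]
      exact hx.2
    · rw [intervalIntegral.integral_of_le k2.le, integral_Ioc_eq_integral_Ioo,
        ← integral_Ico_eq_integral_Ioo]
      refine setIntegral_congr_fun measurableSet_Ico fun x hx => ?_
      simp only [hgt]
      have : |x| = x := abs_of_nonneg (k1.le.trans hx.1)
      rw [this, if_neg (not_lt.2 hx.1), if_pos hx.2]
  · rw [← integral_Ici_eq_integral_Ioi]
    refine setIntegral_congr_fun measurableSet_Ici fun x hx => ?_
    rw [mem_Ici] at hx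
    simp only [hgt]
    have : |x| = x := abs_of_nonneg (by linarith)
    rw [this, if_neg (not_lt.2 (by linarith)), if_neg (not_lt.2 hx)]

/-- the integral over the walls -/
theorem wal_half {t : ℝ} (ht : 0 ≤ t) {H : ℝ × ℝ → ℂ} (hc : Continuous H)
    (hs : HasCompactSupport H) :
    ∫ y in Ioo (-ste) t, H (pos y, y) =
      (∫ y in (-ste)..(0 : ℝ), H (rad, y)) + ∫ y in (0 : ℝ)..t, H (del, y) := by
  have k3 := ste_pos
  have hI := integrableOn_pos (a := -ste) (b := t) hc hs
  have hu : Ioo (-ste) t = Ioo (-ste) 0 ∪ Ico 0 t := by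
    rcases eq_or_lt_of_le ht with h | h
    · rw [← h]
      simp
    · rw [Ioo_union_Ico_eq_Ioo (by linarith) ht]
  have hd : Disjoint (Ioo (-ste) 0) (Ico 0 t) := by
    rw [Set.disjoint_left]
    rintro x ⟨_, h2⟩ ⟨h, _⟩
    linarith
  rw [hu] at hI ⊢
  rw [setIntegral_union hd measurableSet_Ico (hI.mono_set subset_union_left)
    (hI.mono_set subset_union_right)]
  congr 1
  · rw [intervalIntegral.integral_of_le (by linarith), integral_Ioc_eq_integral_Ioo]
    refine setIntegral_congr_fun measurableSet_Ioo fun x hx => ?_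
    simp only [pos]
    rw [if_pos hx.2]
  · rw [intervalIntegral.integral_of_le ht, integral_Ioc_eq_integral_Ioo,
      ← integral_Ico_eq_integral_Ioo]
    refine setIntegral_congr_fun measurableSet_Ico fun x hx => ?_
    simp only [pos]
    rw [if_neg (not_lt.2 hx.1)]

/-- the integral along the right half of the curve -/
theorem gam_half {t : ℝ} (ht : 0 ≤ t) {H : ℝ × ℝ → ℂ} (hc : Continuous H)
    (hs : HasCompactSupport H) :
    ∫ r in Ioi (0 : ℝ), H (gam t r) =
      (∫ x in Ioi (0 : ℝ), H (x, hgt t x)) + ∫ y in Ioo (-ste) t, H (pos y, y) := by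
  have k1 := del_pos
  have k2 := del_lt_rad
  have k3 := ste_pos
  have hI := integrable_gam ht hc hs
  have hf : Continuous fun r : ℝ => H (gam t r) := hc.comp (gam_cont ht)
  rw [hor_half hc hs, wal_half ht hc hs]
  have hii : ∀ a b : ℝ, IntervalIntegrable (fun r : ℝ => H (gam t r)) volume a b :=
    fun a b => hf.intervalIntegrable a b
  -- splitting
  have s1 : ∫ r in Ioi (0 : ℝ), H (gam t r) =
      (∫ r in (0 : ℝ)..del, H (gam t r)) + (∫ r in del..(del + t), H (gam t r)) +
      (∫ r in (del + t)..(rad + t), H (gam t r)) +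
      (∫ r in (rad + t)..(rad + t + ste), H (gam t r)) +
      ∫ r in Ioi (rad + t + ste), H (gam t r) := by
    rw [intervalIntegral.integral_add_adjacent_intervals (hii _ _) (hii _ _),
      intervalIntegral.integral_add_adjacent_intervals (hii _ _) (hii _ _),
      intervalIntegral.integral_add_adjacent_intervals (hii _ _) (hii _ _)]
    rw [intervalIntegral.integral_interval_add_Ioi hI.integrableOn hI.integrableOn]
  rw [s1]
  -- values of the two functions
  have v1 : ∀ r, 0 ≤ r → r ≤ del → cX t r = r := by
    intro r h0 h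
    unfold cX
    rw [min_eq_left h, min_eq_left (by linarith), max_eq_left (by linarith),
      max_eq_left (by linarith)]
    ring
  have v2 : ∀ r, del ≤ r → r ≤ del + t → cX t r = del := by
    intro r h0 h
    unfold cX
    rw [min_eq_right h0, min_eq_left (by linarith), max_eq_left (by linarith),
      max_eq_left (by linarith)]
    ring
  have v3 : ∀ r, del + t ≤ r → r ≤ rad + t → cX t r = r - t := by
    intro r h0 h
    unfold cX
    rw [min_eq_right (by linarith), min_eq_left (by linarith), max_eq_right (by linarith),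
      max_eq_left (by linarith)]
    ring
  have v4 : ∀ r, rad + t ≤ r → r ≤ rad + t + ste → cX t r = rad := by
    intro r h0 h
    unfold cX
    rw [min_eq_right (by linarith), min_eq_right (by linarith), max_eq_right (by linarith),
      max_eq_left (by linarith)]
    ring
  have p1 : ∫ r in (0 : ℝ)..del, H (gam t r) = ∫ x in (0 : ℝ)..del, H (x, t) := by
    refine intervalIntegral.integral_congr fun r hr => ?_
    rw [uIcc_of_le k1.le] at hr
    have e1 := v1 r hr.1 hr.2
    have e2 := sum_eq ht hr.1
    have e3 : cV t r = 0 := by linarith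
    rw [gam_nonneg hr.1, e1, e3, sub_zero]
  have p2 : ∫ r in del..(del + t), H (gam t r) = ∫ y in (0 : ℝ)..t, H (del, y) := by
    have e := intervalIntegral.integral_comp_sub_left (a := del) (b := del + t)
      (fun y => H (del, y)) (t + del)
    rw [show t + del - (del + t) = 0 by ring, show t + del - del = t by ring] at e
    rw [← e]
    refine intervalIntegral.integral_congr fun r hr => ?_
    rw [uIcc_of_le (by linarith)] at hr
    have h0 : 0 ≤ r := k1.le.trans hr.1
    have e1 := v2 r hr.1 hr.2
    have e2 := sum_eq ht h0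
    have e3 : cV t r = r - del := by linarith
    rw [gam_nonneg h0, e1, e3, show t - (r - del) = t + del - r by ring]
  have p3 : ∫ r in (del + t)..(rad + t), H (gam t r) = ∫ x in del..rad, H (x, 0) := by
    have e := intervalIntegral.integral_comp_sub_right (a := del + t) (b := rad + t)
      (fun x => H (x, 0)) t
    rw [show del + t - t = del by ring, show rad + t - t = rad by ring] at e
    rw [← e]
    refine intervalIntegral.integral_congr fun r hr => ?_
    rw [uIcc_of_le (by linarith)] at hr
    have h0 : 0 ≤ r := by linarith [hr.1]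
    have e1 := v3 r hr.1 hr.2
    have e2 := sum_eq ht h0
    have e3 : cV t r = t := by linarith
    rw [gam_nonneg h0, e1, e3, sub_self]
  have p4 : ∫ r in (rad + t)..(rad + t + ste), H (gam t r) = ∫ y in (-ste)..(0 : ℝ), H (rad, y) := by
    have e := intervalIntegral.integral_comp_sub_left (a := rad + t) (b := rad + t + ste)
      (fun y => H (rad, y)) (rad + t)
    rw [show rad + t - (rad + t + ste) = -ste by ring, show rad + t - (rad + t) = 0 by ring] at e
    rw [← e]
    refine intervalIntegral.integral_congr fun r hr => ?_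
    rw [uIcc_of_le (by linarith)] at hr
    have h0 : 0 ≤ r := by linarith [hr.1]
    have e1 := v4 r hr.1 hr.2
    have e2 := sum_eq ht h0
    have e3 : cV t r = r - rad := by linarith
    rw [gam_nonneg h0, e1, e3, show t - (r - rad) = rad + t - r by ring]
  have p5 : ∫ r in Ioi (rad + t + ste), H (gam t r) = ∫ x in Ioi rad, H (x, -ste) := by
    have e : ∫ r : ℝ, (Ioi rad).indicator (fun x => H (x, -ste)) (r - (t + ste)) =
        ∫ r : ℝ, (Ioi rad).indicator (fun x => H (x, -ste)) r :=
      integral_sub_right_eq_self (fun r : ℝ => (Ioi rad).indicator (fun x => H (x, -ste)) r) (t + ste)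
    rw [integral_indicator measurableSet_Ioi] at e
    rw [← e, ← integral_indicator measurableSet_Ioi]
    refine integral_congr_ae (Filter.Eventually.of_forall fun r => ?_)
    simp only [indicator, mem_Ioi]
    by_cases h : rad + t + ste < r
    · rw [if_pos h, if_pos (by linarith)]
      have h0 : 0 ≤ r := by linarith
      have e1 := cX_far ht (r := r) h.le
      rw [gam_nonneg h0, e1.1, e1.2, show r - t - ste = r - (t + ste) by ring,
        show t - (t + ste) = -ste by ring]
    · rw [if_neg h, if_neg (by linarith)]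
  rw [p1, p2, p3, p4, p5]
  ring

/-- package GeoInt -/
theorem t_GeoInt : JobGeoInt := by
  intro t ht F hc hs
  have ht0 := ht.1
  -- the reflected function
  have hHc : Continuous fun p : ℝ × ℝ => F (-p.1, p.2) := hc.comp (by fun_prop)
  have hHs : HasCompactSupport fun p : ℝ × ℝ => F (-p.1, p.2) :=
    hs.comp_homeomorph ((Homeomorph.neg ℝ).prodCongr (Homeomorph.refl ℝ))
  have g1 := gam_half ht0 hc hs
  have g2 := gam_half ht0 hHc hHs
  have hI := integrable_gam ht0 hc hs
  have hJ := integrable_hgt (t := t) hc hs
  have hgt_even : ∀ x, hgt t (-x) = hgt t x := fun x => by simp [hgt]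
  have a1 : ∫ s : ℝ, F (gam t s) = (∫ s in Iic (0 : ℝ), F (gam t s)) +
      ∫ s in Ioi (0 : ℝ), F (gam t s) :=
    (intervalIntegral.integral_Iic_add_Ioi hI.integrableOn hI.integrableOn).symm
  have a2 : ∫ x : ℝ, F (x, hgt t x) = (∫ x in Iic (0 : ℝ), F (x, hgt t x)) +
      ∫ x in Ioi (0 : ℝ), F (x, hgt t x) :=
    (intervalIntegral.integral_Iic_add_Ioi hJ.integrableOn hJ.integrableOn).symm
  have b1 : ∫ s in Iic (0 : ℝ), F (gam t s) = ∫ r in Ioi (0 : ℝ), F (-(gam t r).1, (gam t r).2) := by
    have e := integral_comp_neg_Ioi (0 : ℝ) (fun s => F (gam t s))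
    rw [neg_zero] at e
    rw [← e]
    refine setIntegral_congr_fun measurableSet_Ioi fun r hr => ?_
    have h0 : 0 ≤ r := le_of_lt hr
    rw [gam_neg ht0 h0, gam_nonneg h0]
  have b2 : ∫ x in Iic (0 : ℝ), F (x, hgt t x) = ∫ x in Ioi (0 : ℝ), F (-x, hgt t x) := by
    have e := integral_comp_neg_Ioi (0 : ℝ) (fun x => F (x, hgt t x))
    rw [neg_zero] at e
    rw [← e]
    refine setIntegral_congr_fun measurableSet_Ioi fun r _ => ?_
    rw [hgt_even]
  have c1 : ∫ y in Ioo (-ste) t, (F (pos y, y) + F (-pos y, y)) =
      (∫ y in Ioo (-ste) t, F (pos y, y)) + ∫ y in Ioo (-ste) t, F (-pos y, y) :=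
    integral_add (integrableOn_pos hc hs) (integrableOn_pos hHc hHs)
  rw [a1, a2, b1, b2, c1, g1, g2]
  ring

end Pool.Agent.U411.DE
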